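import Mathlib
import Pool.Agent.Q14.MCN1748

set_option autoImplicit false

/-! # A strong MC number with an MC-circle without mirror symmetry -/

namespace Pool.Agent.Results.MP_719c9c_nt.StrongWithoutMirror

open Pool.Agent.Q14.MC

/-- The lattice-invariant reflections, restricted to `ℤ × ℤ`: the reflections in the lines
`x = k/2`, `y = k/2`, `y = x + k` and `y = -x + k`, where `k` is an integer. -/
def IsLatticeReflection (f : ℤ × ℤ → ℤ × ℤ) : Prop :=
  ∃ k : ℤ, (f = fun p => (k - p.1, p.2)) ∨ (f = fun p => (p.1, k - p.2)) ∨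
    (f = fun p => (p.2 - k, p.1 + k)) ∨ (f = fun p => (k - p.2, k - p.1))

/-- Some lattice-invariant reflection maps `L` onto itself. -/
def HasMirrorSymmetry (L : Set (ℤ × ℤ)) : Prop := ∃ f, IsLatticeReflection f ∧ f '' L = L

theorem boundary_eq : onCircle N1748.cert.x N1748.cert.y N1748.cert.R =
    {p : ℤ × ℤ | p ∈ N1748.cert.L} := N1748.good.onCircle_eq rfl

theorem no_mirror : ¬ HasMirrorSymmetry {p : ℤ × ℤ | p ∈ N1748.cert.L} := by
  rintro ⟨f, ⟨k, hk⟩, hf⟩
  have hmem : ∀ p ∈ N1748.cert.L, f p ∈ N1748.cert.L := by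
    intro p hp
    have : f p ∈ f '' {p : ℤ × ℤ | p ∈ N1748.cert.L} := ⟨p, hp, rfl⟩
    rw [hf] at this
    exact this
  have h1 := hmem (-24, 0) (by decide)
  have h2 := hmem (-23, -7) (by decide)
  rcases hk with rfl | rfl | rfl | rfl
  · simp only [N1748.cert, List.mem_cons, Prod.mk.injEq, List.not_mem_nil, or_false] at h1 h2
    omega
  · simp only [N1748.cert, List.mem_cons, Prod.mk.injEq, List.not_mem_nil, or_false] at h1 h2
    omega
  · simp only [N1748.cert, List.mem_cons, Prod.mk.injEq, List.not_mem_nil, or_false] at h1 h2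
    omega
  · simp only [N1748.cert, List.mem_cons, Prod.mk.injEq, List.not_mem_nil, or_false] at h1 h2
    omega

theorem x_eq : N1748.cert.x = -9 / 26 := by
  unfold Cert.x N1748.cert
  norm_num

theorem y_eq : N1748.cert.y = -5 / 26 := by
  unfold Cert.y N1748.cert
  norm_num

theorem R_eq : N1748.cert.R = Real.sqrt (189125 / 338) := by
  unfold Cert.R N1748.cert
  push_cast
  have : (6197248000 : ℝ) = 3328 ^ 2 * (189125 / 338) := by norm_num
  rw [this, Real.sqrt_mul (by norm_num), Real.sqrt_sq (by norm_num)]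
  field_simp

/-- `1748` is a strong MC number, the circle with centre `(-9/26, -5/26)` and squared radius
`189125/338` is an MC-circle of `1748`, and no lattice-invariant reflection maps its set of
lattice points onto itself. -/
theorem result : IsStrongMC 1748 ∧
    IsMCCircle 1748 (-9 / 26) (-5 / 26) (Real.sqrt (189125 / 338)) ∧
    ¬ HasMirrorSymmetry (onCircle (-9 / 26) (-5 / 26) (Real.sqrt (189125 / 338))) := by
  have h := N1748.good.isMCCircle (by decide)
  have hm := no_mirror
  rw [← boundary_eq] at hm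
  rw [x_eq, y_eq, R_eq] at h hm
  exact ⟨⟨⟨_, _, _, h⟩, N1748.not_mc_1⟩, h, hm⟩

end Pool.Agent.Results.MP_719c9c_nt.StrongWithoutMirror
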